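import Pool.Agent.Q295.PGI.Shift

/-!
# Finite projective spaces of dimension at least two are indecomposable matroids
-/

set_option autoImplicit false
set_option linter.unusedSectionVars false

namespace Pool.Agent.Results.MP_da28a5_co.Indecomposable

open Finset Module Pool.Agent.Q295.PGI
open scoped LinearAlgebra.Projectivization

variable {F V : Type} [Field F] [Finite F] [AddCommGroup V] [Module F V] [FiniteDimensional F V]

section

variable [DecidableEq (ℙ F V)] {C : Set (Matroid (ℙ F V))}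

/-- the order argument on a line with coordinates -/
theorem no_typ_frame (hC : IsMatroidSubdivision (PG F V) C) {S' : Finset (ℙ F V)} {e1 e2 e3 : V}
    (hF : Frame (F := F) S' e1 e2 e3) (x y : F) :
    ¬ Typ (PG F V) C (insert (hF.pnt ![0, 0, 1] (nzS 0)) S') (hF.pnt ![0, 1, 0] (nzP 0))
      (hF.pnt ![x, 1, 0] (nzP x)) (hF.pnt ![y, 1, 0] (nzP y)) (hF.pnt ![1, 0, 0] nzI) := by
  intro h
  have hx0 : x ≠ 0 := by
    have := h.1
    rw [hF.rr_iff, Matrix.det_fin_three] at this
    simpa using this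
  have hy0 : y ≠ 0 := by
    obtain ⟨-, -, N, hN, k, -⟩ := h
    have := rr_mono hC hN k
    rw [hF.rr_iff, Matrix.det_fin_three] at this
    simpa using this
  have hxy : x ≠ y := by
    rintro rfl
    obtain ⟨-, -, N, hN, -, -, -, k, -⟩ := h
    exact k.1 rfl
  set l : F := x / y with hl
  have hl0 : l ≠ 0 := div_ne_zero hx0 hy0
  have hl1 : l ≠ 1 := by
    intro h1
    rw [hl, div_eq_one_iff_eq hy0] at h1
    exact hxy h1
  have hly : l * y = x := by
    rw [hl]
    field_simp
  have Q : ∀ k : ℕ, Typ (PG F V) C (insert (hF.pnt ![0, 0, 1] (nzS 0)) S')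
      (hF.pnt ![0, 1, 0] (nzP 0)) (hF.pnt ![l ^ (k + 1) * y, 1, 0] (nzP _))
      (hF.pnt ![l ^ k * y, 1, 0] (nzP _)) (hF.pnt ![1, 0, 0] nzI) := by
    intro k
    induction k with
    | zero =>
      simp only [zero_add, pow_one, pow_zero, one_mul, hly]
      exact h
    | succ k ih =>
      have := shift hC hF l hl0 hl1 _ _ ih
      simp only [← mul_assoc, ← pow_succ'] at this
      exact this
  have hinj : ∀ u v : F, u ≠ v → hF.pnt ![u, 1, 0] (nzP u) ≠ hF.pnt ![v, 1, 0] (nzP v) := by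
    intro u v huv
    have hr : rr (PG F V) (insert (hF.pnt ![0, 0, 1] (nzS 0)) S')
        (hF.pnt ![u, 1, 0] (nzP u)) (hF.pnt ![v, 1, 0] (nzP v)) := by
      rw [hF.rr_iff, Matrix.det_fin_three]
      simp
      exact fun hh => huv (sub_eq_zero.1 hh)
    exact hr.1
  have hfin : IsOfFinOrder l := by
    have : Fintype F := Fintype.ofFinite F
    rw [isOfFinOrder_iff_pow_eq_one]
    exact ⟨Fintype.card F - 1, Nat.sub_pos_of_lt Fintype.one_lt_card,
      FiniteField.pow_card_sub_one_eq_one l hl0⟩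
  have hpos := orderOf_pos_iff.2 hfin
  have hne1 : orderOf l ≠ 1 := fun h1 => hl1 (orderOf_eq_one_iff.1 h1)
  have R : ∀ k : ℕ, 1 ≤ k → k < orderOf l →
      Typ (PG F V) C (insert (hF.pnt ![0, 0, 1] (nzS 0)) S')
      (hF.pnt ![0, 1, 0] (nzP 0)) (hF.pnt ![l ^ k * y, 1, 0] (nzP _))
      (hF.pnt ![l ^ 0 * y, 1, 0] (nzP _)) (hF.pnt ![1, 0, 0] nzI) := by
    intro k hk
    induction k, hk using Nat.le_induction with
    | base =>
      intro _
      exact Q 0
    | succ k hk ih =>
      intro hlt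
      refine typ_trans hC (Q k) (ih (by omega)) (hinj _ _ ?_)
      intro hcon
      rw [pow_zero, one_mul] at hcon
      have h2 : l ^ (k + 1) = 1 := mul_right_cancel₀ hy0 (by rw [hcon, one_mul])
      exact pow_ne_one_of_lt_orderOf (by omega) hlt h2
  obtain ⟨m, hm⟩ : ∃ m, orderOf l = m + 2 := ⟨orderOf l - 2, by omega⟩
  have h1 := R (m + 1) (by omega) (by omega)
  have h2 := Q (m + 1)
  have h3 : l ^ (m + 1 + 1) = l ^ 0 := by
    rw [pow_zero, ← pow_orderOf_eq_one l, hm]
  simp only [h3] at h2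
  exact typ_excl hC h1 h2

theorem mem_pnt {S' : Finset (ℙ F V)} {e1 e2 e3 : V} (hF : Frame (F := F) S' e1 e2 e3)
    (c : Fin 3 → F) (hc : c ≠ 0) : lin e1 e2 e3 c ∈ (hF.pnt c hc).submodule := by
  unfold Frame.pnt
  rw [Projectivization.submodule_mk]
  exact Submodule.mem_span_singleton_self _

theorem pnt_eq {S' : Finset (ℙ F V)} {e1 e2 e3 : V} (hF : Frame (F := F) S' e1 e2 e3)
    (c : Fin 3 → F) (hc : c ≠ 0) (p : ℙ F V) (h : lin e1 e2 e3 c = p.rep) : hF.pnt c hc = p := by
  apply Projectivization.submodule_injective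
  unfold Frame.pnt
  rw [Projectivization.submodule_mk, h, Projectivization.submodule_eq]

/-- every point is parallel to a point of the line -/
theorem exists_par {S' : Finset (ℙ F V)} {e1 e2 e3 : V} (hF : Frame (F := F) S' e1 e2 e3)
    (p : ℙ F V) (h1 : rr (PG F V) (insert (hF.pnt ![0, 0, 1] (nzS 0)) S') p
      (hF.pnt ![0, 1, 0] (nzP 0)))
    (h2 : rr (PG F V) (insert (hF.pnt ![0, 0, 1] (nzS 0)) S') p (hF.pnt ![1, 0, 0] nzI)) :
    ∃ x : F, x ≠ 0 ∧ ¬ rr (PG F V) (insert (hF.pnt ![0, 0, 1] (nzS 0)) S') p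
      (hF.pnt ![x, 1, 0] (nzP x)) := by
  have htop : p.rep ∈ LinearMap.range (lin (F := F) e1 e2 e3) ⊔ sp S' := by
    rw [hF.span]
    exact Submodule.mem_top
  obtain ⟨y, ⟨c, rfl⟩, w, hw, hyw⟩ := Submodule.mem_sup.1 htop
  have key : ∀ (x : Fin 3 → F) (hx : x ≠ 0) (t r : F), c = t • x + r • ![0, 0, 1] →
      ¬ rr (PG F V) (insert (hF.pnt ![0, 0, 1] (nzS 0)) S') p (hF.pnt x hx) := by
    intro x hx t r hcx
    refine not_rr ?_
    rw [Projectivization.submodule_eq, Submodule.span_singleton_le_iff_mem, ← hyw, hcx, map_add,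
      map_smul, map_smul, sp_insert, add_assoc]
    refine Submodule.add_mem_sup (Submodule.smul_mem _ _ (mem_pnt hF _ _)) ?_
    exact Submodule.add_mem_sup (Submodule.smul_mem _ _ (mem_pnt hF _ _)) hw
  have hc0 : c 0 ≠ 0 := by
    intro h0
    refine key _ _ (c 1) (c 2) ?_ h1
    ext k
    fin_cases k <;> simp [h0]
  have hc1 : c 1 ≠ 0 := by
    intro h0
    refine key _ _ (c 0) (c 2) ?_ h2
    ext k
    fin_cases k <;> simp [h0]
  refine ⟨c 0 / c 1, div_ne_zero hc0 hc1, key _ _ (c 1) (c 2) ?_⟩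
  ext k
  fin_cases k
  · simp
    field_simp
  · simp
  · simp

theorem no_typ_frame' (hC : IsMatroidSubdivision (PG F V) C) {S' : Finset (ℙ F V)} {e1 e2 e3 : V}
    (hF : Frame (F := F) S' e1 e2 e3) (b c : ℙ F V) :
    ¬ Typ (PG F V) C (insert (hF.pnt ![0, 0, 1] (nzS 0)) S') (hF.pnt ![0, 1, 0] (nzP 0))
      b c (hF.pnt ![1, 0, 0] nzI) := by
  intro h
  have h' := h
  obtain ⟨k1, k2, N, hN, k3, k4, k5, k6, -⟩ := h'
  have k3 := rr_mono hC hN k3
  have k4 := rr_mono hC hN k4
  obtain ⟨x, hx0, hx⟩ := exists_par hF b (rr_symm k1) k4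
  obtain ⟨y, hy0, hy⟩ := exists_par hF c (rr_symm k3) k2
  have t1 : Typ (PG F V) C (insert (hF.pnt ![0, 0, 1] (nzS 0)) S') (hF.pnt ![0, 1, 0] (nzP 0))
      (hF.pnt ![x, 1, 0] (nzP x)) c (hF.pnt ![1, 0, 0] nzI) := by
    refine (stepA hC h.symm12 ?_ hx).symm12
    rw [hF.rr_iff, Matrix.det_fin_three]
    simpa using hx0
  have t2 : Typ (PG F V) C (insert (hF.pnt ![0, 0, 1] (nzS 0)) S') (hF.pnt ![0, 1, 0] (nzP 0))
      (hF.pnt ![x, 1, 0] (nzP x)) (hF.pnt ![y, 1, 0] (nzP y)) (hF.pnt ![1, 0, 0] nzI) := by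
    refine (stepA hC t1.swap ?_ hy).swap
    rw [hF.rr_iff, Matrix.det_fin_three]
    simp
  exact no_typ_frame hC hF x y t2

theorem no_typ (hC : IsMatroidSubdivision (PG F V) C) (hr : 3 ≤ finrank F V)
    (S : Finset (ℙ F V)) (a b c d : ℙ F V) : ¬ Typ (PG F V) C S a b c d := by
  intro h
  have h' := h
  obtain ⟨k1, k2, N, hN, k3, k4, k5, k6, -⟩ := h'
  have k5 := rr_mono hC hN k5
  have hc := rr_card k1
  obtain ⟨s, hs⟩ : S.Nonempty := by
    rw [← Finset.card_pos]
    omega
  have hS : insert s (S.erase s) = S := Finset.insert_erase hs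
  have hcard := Finset.card_erase_add_one hs
  have hF : Frame (F := F) (S.erase s) d.rep a.rep s.rep := by
    refine ⟨by omega, ?_⟩
    have h1 := (Pool.Agent.Q295.PGI.rr_iff hc a d).1 k5
    rw [← hS, sp_insert] at h1
    rw [eq_top_iff, ← h1]
    refine sup_le ?_ (sup_le ?_ (sup_le ?_ le_sup_right))
    · refine le_sup_of_le_left ?_
      rw [Projectivization.submodule_eq, Submodule.span_singleton_le_iff_mem]
      exact ⟨![0, 1, 0], by simp [lin_apply]⟩
    · refine le_sup_of_le_left ?_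
      rw [Projectivization.submodule_eq, Submodule.span_singleton_le_iff_mem]
      exact ⟨![1, 0, 0], by simp [lin_apply]⟩
    · refine le_sup_of_le_left ?_
      rw [Projectivization.submodule_eq, Submodule.span_singleton_le_iff_mem]
      exact ⟨![0, 0, 1], by simp [lin_apply]⟩
  have e1 : hF.pnt ![0, 1, 0] (nzP 0) = a := pnt_eq hF _ _ a (by simp [lin_apply])
  have e2 : hF.pnt ![1, 0, 0] nzI = d := pnt_eq hF _ _ d (by simp [lin_apply])
  have e3 : hF.pnt ![0, 0, 1] (nzS 0) = s := pnt_eq hF _ _ s (by simp [lin_apply])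
  apply no_typ_frame' hC hF b c
  rw [e1, e2, e3, hS]
  exact h

end

/-- The matroid of a finite projective space of rank at least three is indecomposable: in every
matroid subdivision of its matroid polytope the polytope itself is a cell, and every cell is a face
of it. -/
theorem result (F V : Type) [Field F] [Finite F] [AddCommGroup V] [Module F V]
    [FiniteDimensional F V] [DecidableEq (ℙ F V)] (hr : 3 ≤ finrank F V)
    (C : Set (Matroid (ℙ F V))) (hC : IsMatroidSubdivision (PG F V) C) :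
    PG F V ∈ C ∧ ∀ N ∈ C, IsExtreme ℝ (polytope (PG F V)) (polytope N) := by
  have := finite_pts F V
  have h1 := mem_of_no_typ hC (no_typ hC hr)
  exact ⟨h1, fun N hN => face_of_mem hC h1 hN⟩

end Pool.Agent.Results.MP_da28a5_co.Indecomposable
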